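import Pool.Agent.Helper37.SY.Spec

/-! Swarm SY, part FCV: elementary properties of `F`. -/

set_option autoImplicit false

noncomputable section

open MeasureTheory Set Filter Topology
open scoped ENNReal

namespace Pool.Agent.Helper52.SY.FCV

open Pool.Agent.Helper77.LM Helper63.LP Helper37.SY

variable {n : ℕ}

/-- the product of copies of the simplex -/
def Sn (m n : ℕ) : Set (Fin m → Fin n → ℝ) := {y | ∀ i, y i ∈ Dl n}

theorem Sn_compact (m n : ℕ) : IsCompact (Sn m n) := by
  have h : Sn m n = Set.pi univ (fun _ => Dl n) := by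
    ext y
    simp [Sn]
  rw [h]
  exact isCompact_univ_pi fun _ => isCompact_Dl

theorem Sn_meas (m n : ℕ) : MeasurableSet (Sn m n) := (Sn_compact m n).measurableSet

theorem W_nonneg (q : ℝ) (x : Fin (n + 1) → Fin n → ℝ) : 0 ≤ W q x :=
  Real.rpow_nonneg (abs_nonneg _) _

theorem cont_cons : Continuous fun p : (Fin n → ℝ) × (Fin n → Fin n → ℝ) =>
    (Fin.cons p.1 p.2 : Fin (n + 1) → Fin n → ℝ) := by
  refine continuous_pi fun i => ?_
  refine Fin.cases ?_ (fun j => ?_) i
  · simpa using continuous_fst
  · simp only [Fin.cons_succ]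
    exact (continuous_apply j).comp continuous_snd

theorem integ (q : ℝ) (hc : Continuous (W q : (Fin (n + 1) → Fin n → ℝ) → ℝ)) (x : Fin n → ℝ) :
    IntegrableOn (fun y => W q (Fin.cons x y)) (Sn n n) volume := by
  refine ContinuousOn.integrableOn_compact (Sn_compact n n) (Continuous.continuousOn ?_)
  exact hc.comp (cont_cons.comp (by fun_prop : Continuous fun y => (x, y)))

theorem F_eq (q : ℝ) (x : Fin n → ℝ) : F q x = ∫ y in Sn n n, W q (Fin.cons x y) := rfl

theorem main (hW : S_WPR) : S_FCV := by
  intro n q hq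
  obtain ⟨hc, hperm, haff, hconv⟩ := hW n q hq
  refine ⟨⟨convex_univ, ?_⟩, ?_, ?_, ?_, ?_, ?_⟩
  · -- convexity
    intro x _ x' _ a b ha hb hab
    rw [F_eq, F_eq, F_eq, smul_eq_mul, smul_eq_mul, ← integral_const_mul, ← integral_const_mul,
      ← integral_add ((integ q hc x).const_mul a) ((integ q hc x').const_mul b)]
    refine integral_mono (integ q hc _)
      (((integ q hc x).const_mul a).add ((integ q hc x').const_mul b)) ?_
    intro y
    exact (hconv y).2 (mem_univ x) (mem_univ x') ha hb hab
  · -- continuity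
    have h1 : Continuous (Function.uncurry fun (x : Fin n → ℝ) (y : Fin n → Fin n → ℝ) =>
        W q (Fin.cons x y)) := hc.comp cont_cons
    exact continuous_parametric_integral_of_continuous h1 (Sn_compact n n)
  · intro x
    exact setIntegral_nonneg (Sn_meas n n) fun y _ => W_nonneg q _
  · -- symmetry
    intro σ x
    have hmat : ∀ v : Fin n → ℝ, (LinearMap.toMatrix' (Tl σ)).mulVec v = Tl σ v := fun v =>
      LinearMap.toMatrix'_mulVec _ _
    have hdet : |(LinearMap.toMatrix' (Tl σ)).det| = 1 := by
      rw [LinearMap.det_toMatrix']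
      exact abs_det_Tl σ
    let Φ : (Fin n → Fin n → ℝ) → (Fin n → Fin n → ℝ) := fun y i => Tl σ (y i)
    have hΦ : MeasurePreserving Φ volume volume :=
      volume_preserving_pi (fun _ => mp_Tl σ)
    have hTc : Continuous (Tl σ : (Fin n → ℝ) → (Fin n → ℝ)) :=
      LinearMap.continuous_of_finiteDimensional _
    have hΦe : MeasurableEmbedding Φ := by
      refine Continuous.measurableEmbedding
        (continuous_pi fun i => hTc.comp (continuous_apply i)) ?_
      intro y y' hyy
      funext i
      exact Tl_injective σ (congrFun hyy i)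
    have h := hΦ.setIntegral_preimage_emb hΦe (fun y => W q (Fin.cons (Tl σ x) y)) (Sn n n)
    have h2 : Φ ⁻¹' (Sn n n) = Sn n n := by
      ext y
      show (∀ i, Tl σ (y i) ∈ Dl n) ↔ ∀ i, y i ∈ Dl n
      exact forall_congr' fun i => Tl_mem σ
    rw [h2] at h
    rw [F_eq, F_eq, ← h]
    refine setIntegral_congr_fun (Sn_meas n n) fun y _ => ?_
    show W q (Fin.cons (Tl σ x) (Φ y)) = W q (Fin.cons x y)
    have h3 := haff (LinearMap.toMatrix' (Tl σ)) 0 (Fin.cons x y)
    rw [hdet, Real.one_rpow, one_mul] at h3
    rw [← h3]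
    congr 1
    funext i
    refine Fin.cases ?_ (fun j => ?_) i
    · simp only [Fin.cons_zero, hmat, add_zero]
    · simp only [Fin.cons_succ, hmat, add_zero]
      rfl
  · -- Fubini
    let e := MeasurableEquiv.piFinSuccAbove (fun _ : Fin (n + 1) => Fin n → ℝ) 0
    have he : MeasurePreserving e volume volume :=
      volume_preserving_piFinSuccAbove (fun _ : Fin (n + 1) => Fin n → ℝ) 0
    have hes : MeasurePreserving e.symm volume volume := he.symm e
    have h := hes.setIntegral_preimage_emb e.symm.measurableEmbedding (W q) (Sn (n + 1) n)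
    have hcons : ∀ p : (Fin n → ℝ) × (Fin n → Fin n → ℝ), e.symm p = Fin.cons p.1 p.2 := by
      intro p
      have h5 : e (Fin.cons p.1 p.2) = p := by
        refine Prod.ext ?_ ?_
        · rfl
        · funext j
          show (Fin.cons p.1 p.2 : Fin (n + 1) → Fin n → ℝ) (Fin.succAbove 0 j) = p.2 j
          rw [Fin.succAbove_zero, Fin.cons_succ]
      rw [← h5, e.symm_apply_apply, h5]
    have h2 : e.symm ⁻¹' (Sn (n + 1) n) = Dl n ×ˢ Sn n n := by
      ext p
      show (∀ i, (e.symm p) i ∈ Dl n) ↔ p.1 ∈ Dl n ∧ ∀ i, p.2 i ∈ Dl n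
      rw [hcons, Fin.forall_fin_succ]
      simp only [Fin.cons_zero, Fin.cons_succ]
    rw [h2] at h
    have h3 : Gq q (Dl n) = ∫ y in Sn (n + 1) n, W q y := rfl
    have h4 : (fun p : (Fin n → ℝ) × (Fin n → Fin n → ℝ) => W q (e.symm p)) =
        fun p => W q (Fin.cons p.1 p.2) := by
      funext p
      rw [hcons]
    rw [h4] at h
    rw [h3, ← h, Measure.volume_eq_prod, setIntegral_prod]
    · rfl
    · refine ContinuousOn.integrableOn_compact (isCompact_Dl.prod (Sn_compact n n))
        (Continuous.continuousOn ?_)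
      exact hc.comp cont_cons
  · -- positivity
    have h3 : Gq q (Dl n) = ∫ y in Sn (n + 1) n, W q y := rfl
    have hint : IntegrableOn (W q : (Fin (n + 1) → Fin n → ℝ) → ℝ) (Sn (n + 1) n) volume :=
      ContinuousOn.integrableOn_compact (Sn_compact (n + 1) n) hc.continuousOn
    rw [h3, setIntegral_pos_iff_support_of_nonneg_ae
      (Filter.Eventually.of_forall fun x => W_nonneg q x) hint]
    obtain ⟨ε, hε, hb⟩ := Metric.isOpen_iff.1 isOpen_interior (0 : Fin n → ℝ)
      (zero_mem_interior_Dl n)
    let U : Set (Fin (n + 1) → Fin n → ℝ) := {x | W q x ≠ 0} ∩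
      Set.pi univ (fun _ => interior (Dl n))
    have hU : IsOpen U := (isOpen_ne_fun hc continuous_const).inter
      (isOpen_set_pi finite_univ fun _ _ => isOpen_interior)
    have hUn : U.Nonempty := by
      refine ⟨Fin.cons 0 (fun i => Pi.single i (ε / 2)), ?_, ?_⟩
      · have hm : (Matrix.of fun i j : Fin n =>
            (Fin.cons (0 : Fin n → ℝ) (fun i => Pi.single i (ε / 2)) : Fin (n + 1) → Fin n → ℝ)
              i.succ j - (Fin.cons (0 : Fin n → ℝ) (fun i => Pi.single i (ε / 2)) :
                Fin (n + 1) → Fin n → ℝ) 0 j) = Matrix.diagonal (fun _ : Fin n => ε / 2) := by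
          ext i j
          simp only [Matrix.of_apply, Fin.cons_succ, Fin.cons_zero, Pi.zero_apply, sub_zero]
          rw [Matrix.diagonal_apply, Pi.single_apply]
          by_cases hij : i = j
          · simp [hij]
          · rw [if_neg hij, if_neg (fun h => hij h.symm)]
        show W q _ ≠ 0
        unfold W
        rw [hm, Matrix.det_diagonal]
        refine (Real.rpow_pos_of_pos ?_ q).ne'
        simp only [Finset.prod_const]
        positivity
      · intro i _
        apply hb
        rw [Metric.mem_ball, dist_zero_right]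
        refine Fin.cases ?_ (fun j => ?_) i
        · simpa using hε
        · simp only [Fin.cons_succ]
          rw [Pi.norm_single, Real.norm_eq_abs, abs_of_pos (half_pos hε)]
          exact half_lt_self hε
    refine lt_of_lt_of_le (hU.measure_pos volume hUn) (measure_mono ?_)
    rintro x ⟨hx1, hx2⟩
    exact ⟨hx1, fun i => interior_subset (hx2 i (mem_univ i))⟩

end Pool.Agent.Helper52.SY.FCV

end
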